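import Pool.Agent.R485.Cantor.Asymp

/-!
# A fully divergent basic sequence for which the set of `Q`-normal numbers which are abnormal along
# arithmetic progressions has Hausdorff dimension zero

The basic sequence `q` consists of slots `[t ^ 2, (t + 1) ^ 2)`. If `t` is not a square then there are
exactly two consecutive small terms `q_s = q_{s+1} = ⌊log_2 t⌋ + 2` in the slot, and `s` is even. If
`t` is a square then there is a run of `⌊log_2 t⌋ + 2` terms with this value. All other terms are so
large that `q_p ≥ (q_1 ⋯ q_{p-1}) ^ p`. Up to a negligible amount the sum `Q^{(2)}_n` comes from even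
places. If `x` is normal of order two but not along the even places, then some block occurs very often
at odd places, and there a digit `≤ M` must occur at infinitely many places with a huge `q_p`. The set
of these `x` has Hausdorff dimension zero.
-/

set_option autoImplicit false

namespace Pool.Agent.Results.MP_ab119d_nt.DimensionZero

open Filter Topology Pool.Agent.R485.Cantor

/-- There is a basic sequence `q` with `q_n → ∞`, fully divergent of type I, for which even the set
`N_2(Q) \ N^AP_2(Q; 2, 0)` has Hausdorff dimension `0`. In particular its subset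
`N(Q) \ ⋃_{k ≥ 2} ⋃_{r < k} N^AP_k(Q; k, r)` has Hausdorff dimension `0`. -/
theorem result : ∃ q : ℕ → ℕ, Basic q ∧ Tendsto q atTop atTop ∧ FullyDivergentI q ∧
    dimH {x : ℝ | NormalOfOrder q 2 x ∧ ¬ APNormal q 2 2 0 x} = 0 ∧
    dimH {x : ℝ | (∀ k, 1 ≤ k → NormalOfOrder q k x) ∧
      ∀ k r, 2 ≤ k → r < k → ¬ APNormal q k k r x} = 0 := by
  have h : dimH {x : ℝ | NormalOfOrder qq 2 x ∧ ¬ APNormal qq 2 2 0 x} = 0 := by
    refine le_antisymm ?_ (zero_le)
    rw [← dimH_small_digits basic_qq {p | 1 ≤ p ∧ ¬ Low p} (fun p hp => ⟨hp.1, sep_huge hp.1 hp.2⟩)]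
    exact dimH_mono fun x hx => small_digits x hx.1 hx.2
  refine ⟨qq, basic_qq, tendsto_qq, divI, h, ?_⟩
  refine le_antisymm ?_ (zero_le)
  rw [← h]
  exact dimH_mono fun x hx => ⟨hx.1 2 (by norm_num), hx.2 2 0 le_rfl (by norm_num)⟩

end Pool.Agent.Results.MP_ab119d_nt.DimensionZero
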